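import Pool.Agent.H375R3.Pol.Flags
set_option autoImplicit false
set_option linter.unusedVariables false

/-! Automorphisms and dualities act on the flags. -/

namespace H375.Pol

open Set

/-- dualities reverse ranks -/
lemma rk_dual {n : ℕ} (P : Polytope n) (δ : P.Face ≃ P.Face)
    (hδ : ∀ x y, x ≤ y ↔ δ y ≤ δ x) (x : P.Face) : P.rk (δ x) + P.rk x = n + 1 := by
  have hlt : ∀ x y, x < y → δ y < δ x := by
    intro x y hxy
    refine lt_of_le_of_ne ((hδ x y).1 hxy.le) ?_
    intro he
    exact hxy.ne (δ.injective he).symm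
  have key1 : ∀ k : ℕ, ∀ x, P.rk x = k → P.rk (δ x) + k ≤ n + 1 := by
    intro k
    induction k with
    | zero => intro x _; exact rk_le P _
    | succ k ih =>
      intro x hx
      obtain ⟨A, hA⟩ := (IsChain.singleton (r := (· ≤ ·)) (a := x)).exists_subset_flag
      have hxA : x ∈ A := hA rfl
      obtain ⟨y, hy, hyk⟩ := flag_exists P.flag_ranks A (show k ≤ n + 1 by
        have := rk_le P x; omega)
      have h1 := ih y hyk
      have h2 := P.rk_strictMono (hlt _ _ (flag_lt P.rk_strictMono A hy hxA (by omega)))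
      omega
  have key2 : ∀ k : ℕ, ∀ x, P.rk x + k = n + 1 → k ≤ P.rk (δ x) := by
    intro k
    induction k with
    | zero => intro x _; exact Nat.zero_le _
    | succ k ih =>
      intro x hx
      obtain ⟨A, hA⟩ := (IsChain.singleton (r := (· ≤ ·)) (a := x)).exists_subset_flag
      have hxA : x ∈ A := hA rfl
      obtain ⟨y, hy, hyk⟩ := flag_exists P.flag_ranks A (show P.rk x + 1 ≤ n + 1 by omega)
      have h1 := ih y (by omega)
      have h2 := P.rk_strictMono (hlt _ _ (flag_lt P.rk_strictMono A hxA hy (by omega)))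
      omega
  have h1 := key1 _ x rfl
  have h2 := key2 (n + 1 - P.rk x) x (by have := rk_le P x; omega)
  have := rk_le P x
  omega

variable {L : List El} {b t : El} {R : List Rec}

lemma ltB_leB {x y : El} (h : ltB x y = true) : leB x y = true := by
  unfold ltB at h
  rw [Bool.and_eq_true] at h
  exact h.1

/-- order reversing bijection of the list poset -/
def Rev (δ : PF L ≃ PF L) : Prop := ∀ x y : PF L, leB x.1 y.1 = true ↔ leB (δ y).1 (δ x).1 = true

/-- order preserving bijection of the list poset -/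
def Pre (g : PF L ≃ PF L) : Prop := ∀ x y : PF L, leB x.1 y.1 = true ↔ leB (g x).1 (g y).1 = true

lemma ltB_iff (h : Good 3 L b t) (x y : PF L) : ltB x.1 y.1 = true ↔
    leB x.1 y.1 = true ∧ x ≠ y := by
  unfold ltB
  rw [Bool.and_eq_true, Bool.not_eq_true', ← Bool.not_eq_true, Nat.beq_eq]
  constructor
  · rintro ⟨h1, h2⟩
    exact ⟨h1, fun he => h2 (by rw [he])⟩
  · rintro ⟨h1, h2⟩
    exact ⟨h1, fun he => h2 (Subtype.ext (h.inj _ x.2 _ y.2 he))⟩

lemma Rev.lt (h : Good 3 L b t) {δ : PF L ≃ PF L} (hδ : Rev δ) {x y : PF L}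
    (hxy : ltB x.1 y.1 = true) : ltB (δ y).1 (δ x).1 = true := by
  rw [ltB_iff h] at hxy ⊢
  exact ⟨(hδ x y).1 hxy.1, fun he => hxy.2 (δ.injective he).symm⟩

lemma Pre.lt (h : Good 3 L b t) {g : PF L ≃ PF L} (hg : Pre g) {x y : PF L}
    (hxy : ltB x.1 y.1 = true) : ltB (g x).1 (g y).1 = true := by
  rw [ltB_iff h] at hxy ⊢
  exact ⟨(hg x y).1 hxy.1, fun he => hxy.2 (g.injective he)⟩

lemma Rev.rk (h : Good 3 L b t) {δ : PF L ≃ PF L} (hδ : Rev δ) (x : PF L) :
    (δ x).1.1 + x.1.1 = 4 :=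
  rk_dual (mkPoly h) δ (fun x y => hδ x y) x

lemma Pre.rk (h : Good 3 L b t) {g : PF L ≃ PF L} (hg : Pre g) (x : PF L) :
    (g x).1.1 = x.1.1 :=
  rk_orderIso (P := mkPoly h) (P' := mkPoly h)
    { toEquiv := g, map_rel_iff' := fun {x y} => (hg x y).symm } x

/-- `δ` maps the flag `k` to the flag `j` (reversed) -/
def DualAt (R : List Rec) (δ : PF L ≃ PF L) (k j : ℕ) : Prop :=
  (∀ x : PF L, x.1 = vt R k → (δ x).1 = ft R j) ∧ (∀ x : PF L, x.1 = et R k → (δ x).1 = et R j) ∧
    (∀ x : PF L, x.1 = ft R k → (δ x).1 = vt R j)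

/-- `g` maps the flag `k` to the flag `j` -/
def AutAt (R : List Rec) (g : PF L ≃ PF L) (k j : ℕ) : Prop :=
  (∀ x : PF L, x.1 = vt R k → (g x).1 = vt R j) ∧ (∀ x : PF L, x.1 = et R k → (g x).1 = et R j) ∧
    (∀ x : PF L, x.1 = ft R k → (g x).1 = ft R j)

theorem DualAt.step (h : Good 3 L b t) (D : FD L R) {δ : PF L ≃ PF L} (hδ : Rev δ) {k j : ℕ}
    (hk : k < R.length) (hj : j < R.length) (hkj : DualAt R δ k j) {i : ℕ} (hi : i < 3) :
    DualAt R δ (nb R i k) (nb R (2 - i) j) := by
  obtain ⟨h0, h1, h2⟩ := hkj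
  set V : PF L := ⟨vt R k, D.memv k hk⟩ with hV
  set E : PF L := ⟨et R k, D.meme k hk⟩ with hE
  set F : PF L := ⟨ft R k, D.memf k hk⟩ with hF
  have hδV := h0 V rfl
  have hδE := h1 E rfl
  have hδF := h2 F rfl
  have hi' : i = 0 ∨ i = 1 ∨ i = 2 := by omega
  rcases hi' with rfl | rfl | rfl
  · refine ⟨?_, ?_, ?_⟩
    · intro x hx
      have hn := D.nlt k hk 0
      have h3 : ltB x.1 E.1 = true := by
        rw [hx]
        have := D.lve _ hn
        rw [D.ee0 k hk] at this
        exact this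
      have h4 := hδ.lt h h3
      rw [hδE] at h4
      have h5 := hδ.rk h x
      rw [hx, D.rkv _ hn] at h5
      rcases D.un2 j hj _ (δ x).2 (by omega) h4 with h6 | h6
      · exfalso
        rw [← hδV] at h6
        have h7 := δ.injective (Subtype.ext h6)
        apply D.ve0 k hk
        rw [← hx, h7]
      · exact h6
    · intro x hx
      rw [D.ee0 k hk] at hx
      show _ = et R (nb R 2 j)
      rw [D.ee2 j hj]
      exact h1 x hx
    · intro x hx
      rw [D.fe0 k hk] at hx
      show _ = vt R (nb R 2 j)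
      rw [D.ve2 j hj]
      exact h2 x hx
  · refine ⟨?_, ?_, ?_⟩
    · intro x hx
      rw [D.ve1 k hk] at hx
      show _ = ft R (nb R 1 j)
      rw [D.fe1 j hj]
      exact h0 x hx
    · intro x hx
      have hn := D.nlt k hk 1
      have h3 : ltB V.1 x.1 = true := by
        rw [hx]
        have := D.lve _ hn
        rw [D.ve1 k hk] at this
        exact this
      have h3' : ltB x.1 F.1 = true := by
        rw [hx]
        have := D.lef _ hn
        rw [D.fe1 k hk] at this
        exact this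
      have h4 := hδ.lt h h3
      have h4' := hδ.lt h h3'
      rw [hδV] at h4
      rw [hδF] at h4'
      rcases D.un1 j hj _ (δ x).2 h4' h4 with h6 | h6
      · exfalso
        rw [← hδE] at h6
        have h7 := δ.injective (Subtype.ext h6)
        apply D.ee1 k hk
        rw [← hx, h7]
      · exact h6
    · intro x hx
      rw [D.fe1 k hk] at hx
      show _ = vt R (nb R 1 j)
      rw [D.ve1 j hj]
      exact h2 x hx
  · refine ⟨?_, ?_, ?_⟩
    · intro x hx
      rw [D.ve2 k hk] at hx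
      show _ = ft R (nb R 0 j)
      rw [D.fe0 j hj]
      exact h0 x hx
    · intro x hx
      rw [D.ee2 k hk] at hx
      show _ = et R (nb R 0 j)
      rw [D.ee0 j hj]
      exact h1 x hx
    · intro x hx
      have hn := D.nlt k hk 2
      have h3 : ltB E.1 x.1 = true := by
        rw [hx]
        have := D.lef _ hn
        rw [D.ee2 k hk] at this
        exact this
      have h4 := hδ.lt h h3
      rw [hδE] at h4
      have h5 := hδ.rk h x
      rw [hx, D.rkf _ hn] at h5
      rcases D.un0 j hj _ (δ x).2 (by omega) h4 with h6 | h6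
      · exfalso
        rw [← hδF] at h6
        have h7 := δ.injective (Subtype.ext h6)
        apply D.fe2 k hk
        rw [← hx, h7]
      · exact h6

theorem AutAt.step (h : Good 3 L b t) (D : FD L R) {g : PF L ≃ PF L} (hg : Pre g) {k j : ℕ}
    (hk : k < R.length) (hj : j < R.length) (hkj : AutAt R g k j) {i : ℕ} (hi : i < 3) :
    AutAt R g (nb R i k) (nb R i j) := by
  obtain ⟨h0, h1, h2⟩ := hkj
  set V : PF L := ⟨vt R k, D.memv k hk⟩ with hV
  set E : PF L := ⟨et R k, D.meme k hk⟩ with hE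
  set F : PF L := ⟨ft R k, D.memf k hk⟩ with hF
  have hδV := h0 V rfl
  have hδE := h1 E rfl
  have hδF := h2 F rfl
  have hi' : i = 0 ∨ i = 1 ∨ i = 2 := by omega
  rcases hi' with rfl | rfl | rfl
  · refine ⟨?_, ?_, ?_⟩
    · intro x hx
      have hn := D.nlt k hk 0
      have h3 : ltB x.1 E.1 = true := by
        rw [hx]
        have := D.lve _ hn
        rw [D.ee0 k hk] at this
        exact this
      have h4 := hg.lt h h3
      rw [hδE] at h4
      have h5 := hg.rk h x
      rw [hx, D.rkv _ hn] at h5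
      rcases D.un0 j hj _ (g x).2 (by omega) h4 with h6 | h6
      · exfalso
        rw [← hδV] at h6
        have h7 := g.injective (Subtype.ext h6)
        apply D.ve0 k hk
        rw [← hx, h7]
      · exact h6
    · intro x hx
      rw [D.ee0 k hk] at hx
      rw [D.ee0 j hj]
      exact h1 x hx
    · intro x hx
      rw [D.fe0 k hk] at hx
      rw [D.fe0 j hj]
      exact h2 x hx
  · refine ⟨?_, ?_, ?_⟩
    · intro x hx
      rw [D.ve1 k hk] at hx
      rw [D.ve1 j hj]
      exact h0 x hx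
    · intro x hx
      have hn := D.nlt k hk 1
      have h3 : ltB V.1 x.1 = true := by
        rw [hx]
        have := D.lve _ hn
        rw [D.ve1 k hk] at this
        exact this
      have h3' : ltB x.1 F.1 = true := by
        rw [hx]
        have := D.lef _ hn
        rw [D.fe1 k hk] at this
        exact this
      have h4 := hg.lt h h3
      have h4' := hg.lt h h3'
      rw [hδV] at h4
      rw [hδF] at h4'
      rcases D.un1 j hj _ (g x).2 h4 h4' with h6 | h6
      · exfalso
        rw [← hδE] at h6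
        have h7 := g.injective (Subtype.ext h6)
        apply D.ee1 k hk
        rw [← hx, h7]
      · exact h6
    · intro x hx
      rw [D.fe1 k hk] at hx
      rw [D.fe1 j hj]
      exact h2 x hx
  · refine ⟨?_, ?_, ?_⟩
    · intro x hx
      rw [D.ve2 k hk] at hx
      rw [D.ve2 j hj]
      exact h0 x hx
    · intro x hx
      rw [D.ee2 k hk] at hx
      rw [D.ee2 j hj]
      exact h1 x hx
    · intro x hx
      have hn := D.nlt k hk 2
      have h3 : ltB E.1 x.1 = true := by
        rw [hx]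
        have := D.lef _ hn
        rw [D.ee2 k hk] at this
        exact this
      have h4 := hg.lt h h3
      rw [hδE] at h4
      have h5 := hg.rk h x
      rw [hx, D.rkf _ hn] at h5
      rcases D.un2 j hj _ (g x).2 (by omega) h4 with h6 | h6
      · exfalso
        rw [← hδF] at h6
        have h7 := g.injective (Subtype.ext h6)
        apply D.fe2 k hk
        rw [← hx, h7]
      · exact h6

/-- walk along a word -/
def run (R : List Rec) : List ℕ → ℕ → ℕ
  | [], k => k
  | i :: w, k => run R w (nb R i k)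

/-- walk along the dual word -/
def runD (R : List Rec) : List ℕ → ℕ → ℕ
  | [], k => k
  | i :: w, k => runD R w (nb R (2 - i) k)

theorem DualAt.run (h : Good 3 L b t) (D : FD L R) {δ : PF L ≃ PF L} (hδ : Rev δ)
    (w : List ℕ) (hw : ∀ i ∈ w, i < 3) : ∀ {k j : ℕ},
    k < R.length → j < R.length → DualAt R δ k j → DualAt R δ (run R w k) (runD R w j) := by
  induction w with
  | nil => intro k j _ _ hkj; exact hkj
  | cons i w ih =>
    intro k j hk hj hkj
    exact ih (fun i hi => hw i (List.mem_cons_of_mem _ hi)) (D.nlt k hk i) (D.nlt j hj _)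
      (hkj.step h D hδ hk hj (hw i List.mem_cons_self))

theorem AutAt.run (h : Good 3 L b t) (D : FD L R) {g : PF L ≃ PF L} (hg : Pre g)
    (w : List ℕ) (hw : ∀ i ∈ w, i < 3) : ∀ {k j : ℕ},
    k < R.length → j < R.length → AutAt R g k j → AutAt R g (H375.Pol.run R w k) (H375.Pol.run R w j) := by
  induction w with
  | nil => intro k j _ _ hkj; exact hkj
  | cons i w ih =>
    intro k j hk hj hkj
    exact ih (fun i hi => hw i (List.mem_cons_of_mem _ hi)) (D.nlt k hk i) (D.nlt j hj _)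
      (hkj.step h D hg hk hj (hw i List.mem_cons_self))

/-- the flags `j` and `k` are different -/
def diff (R : List Rec) (j k : ℕ) : Bool :=
  !(eqB (vt R j) (vt R k) && eqB (et R j) (et R k) && eqB (ft R j) (ft R k))

lemma diff_spec {j k : ℕ} (h : diff R j k = true) :
    ¬ (vt R j = vt R k ∧ et R j = et R k ∧ ft R j = ft R k) := by
  unfold diff at h
  rw [Bool.not_eq_true', ← Bool.not_eq_true, Bool.and_eq_true, Bool.and_eq_true, eqB_iff,
    eqB_iff, eqB_iff] at h
  exact fun hh => h ⟨⟨hh.1, hh.2.1⟩, hh.2.2⟩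

def certOne (R : List Rec) (j : ℕ) (c : Bool × List ℕ) : Bool :=
  c.2.all (fun i => Nat.blt i 3) &&
  (if c.1 then Nat.beq (run R c.2 0) 0 && diff R (runD R c.2 j) j
    else Nat.beq (run R c.2 0) j && diff R (runD R c.2 j) 0)

def certAll (R : List Rec) (C : List (Bool × List ℕ)) : Bool :=
  Nat.blt 0 R.length && (List.range R.length).all fun j => certOne R j (C.getD j (true, []))

/-- the flag to which a duality maps the flag `k` -/
lemma exists_dual (h : Good 3 L b t) (D : FD L R) {δ : PF L ≃ PF L} (hδ : Rev δ) {k : ℕ}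
    (hk : k < R.length) : ∃ j < R.length, DualAt R δ k j := by
  set V : PF L := ⟨vt R k, D.memv k hk⟩ with hV
  set E : PF L := ⟨et R k, D.meme k hk⟩ with hE
  set F : PF L := ⟨ft R k, D.memf k hk⟩ with hF
  have h1 : ltB V.1 E.1 = true := D.lve k hk
  have h2 : ltB E.1 F.1 = true := D.lef k hk
  have r1 := hδ.rk h V
  have r2 := hδ.rk h E
  have r3 := hδ.rk h F
  have s1 : V.1.1 = 1 := D.rkv k hk
  have s2 : E.1.1 = 2 := D.rke k hk
  have s3 : F.1.1 = 3 := D.rkf k hk
  obtain ⟨j, hj, h3, h4, h5⟩ := D.comp _ (δ F).2 _ (δ E).2 _ (δ V).2 (by omega) (by omega)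
    (by omega) (hδ.lt h h2) (hδ.lt h h1)
  refine ⟨j, hj, ?_, ?_, ?_⟩
  · intro x hx
    have : x = V := Subtype.ext hx
    rw [this]; exact h5.symm
  · intro x hx
    have : x = E := Subtype.ext hx
    rw [this]; exact h4.symm
  · intro x hx
    have : x = F := Subtype.ext hx
    rw [this]; exact h3.symm

lemma exists_aut (h : Good 3 L b t) (D : FD L R) {g : PF L ≃ PF L} (hg : Pre g) {k : ℕ}
    (hk : k < R.length) : ∃ j < R.length, AutAt R g k j := by
  set V : PF L := ⟨vt R k, D.memv k hk⟩ with hV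
  set E : PF L := ⟨et R k, D.meme k hk⟩ with hE
  set F : PF L := ⟨ft R k, D.memf k hk⟩ with hF
  have h1 : ltB V.1 E.1 = true := D.lve k hk
  have h2 : ltB E.1 F.1 = true := D.lef k hk
  have r1 := hg.rk h V
  have r2 := hg.rk h E
  have r3 := hg.rk h F
  have s1 : V.1.1 = 1 := D.rkv k hk
  have s2 : E.1.1 = 2 := D.rke k hk
  have s3 : F.1.1 = 3 := D.rkf k hk
  obtain ⟨j, hj, h3, h4, h5⟩ := D.comp _ (g V).2 _ (g E).2 _ (g F).2 (by omega) (by omega)
    (by omega) (hg.lt h h1) (hg.lt h h2)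
  refine ⟨j, hj, ?_, ?_, ?_⟩
  · intro x hx
    have : x = V := Subtype.ext hx
    rw [this]; exact h3.symm
  · intro x hx
    have : x = E := Subtype.ext hx
    rw [this]; exact h4.symm
  · intro x hx
    have : x = F := Subtype.ext hx
    rw [this]; exact h5.symm

lemma DualAt.unique (D : FD L R) {δ : PF L ≃ PF L} {k j j' : ℕ} (hk : k < R.length)
    (h1 : DualAt R δ k j) (h2 : DualAt R δ k j') :
    vt R j = vt R j' ∧ et R j = et R j' ∧ ft R j = ft R j' := by
  refine ⟨?_, ?_, ?_⟩
  · rw [← h1.2.2 ⟨ft R k, D.memf k hk⟩ rfl, h2.2.2 ⟨ft R k, D.memf k hk⟩ rfl]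
  · rw [← h1.2.1 ⟨et R k, D.meme k hk⟩ rfl, h2.2.1 ⟨et R k, D.meme k hk⟩ rfl]
  · rw [← h1.1 ⟨vt R k, D.memv k hk⟩ rfl, h2.1 ⟨vt R k, D.memv k hk⟩ rfl]

lemma AutAt.unique (D : FD L R) {g : PF L ≃ PF L} {k j j' : ℕ} (hk : k < R.length)
    (h1 : AutAt R g k j) (h2 : AutAt R g k j') :
    vt R j = vt R j' ∧ et R j = et R j' ∧ ft R j = ft R j' := by
  refine ⟨?_, ?_, ?_⟩
  · rw [← h1.1 ⟨vt R k, D.memv k hk⟩ rfl, h2.1 ⟨vt R k, D.memv k hk⟩ rfl]
  · rw [← h1.2.1 ⟨et R k, D.meme k hk⟩ rfl, h2.2.1 ⟨et R k, D.meme k hk⟩ rfl]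
  · rw [← h1.2.2 ⟨ft R k, D.memf k hk⟩ rfl, h2.2.2 ⟨ft R k, D.memf k hk⟩ rfl]

lemma DualAt.symm (D : FD L R) {δ : PF L ≃ PF L} (hinv : ∀ x, δ (δ x) = x) {k j : ℕ}
    (hk : k < R.length) (h1 : DualAt R δ k j) : DualAt R δ j k := by
  have a1 := h1.1 ⟨vt R k, D.memv k hk⟩ rfl
  have a2 := h1.2.1 ⟨et R k, D.meme k hk⟩ rfl
  have a3 := h1.2.2 ⟨ft R k, D.memf k hk⟩ rfl
  refine ⟨?_, ?_, ?_⟩
  · intro x hx
    have : x = δ ⟨ft R k, D.memf k hk⟩ := Subtype.ext (by rw [a3, hx])
    rw [this, hinv]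
  · intro x hx
    have : x = δ ⟨et R k, D.meme k hk⟩ := Subtype.ext (by rw [a2, hx])
    rw [this, hinv]
  · intro x hx
    have : x = δ ⟨vt R k, D.memv k hk⟩ := Subtype.ext (by rw [a1, hx])
    rw [this, hinv]

/-- there is no involutory duality -/
theorem no_polarity (h : Good 3 L b t) (D : FD L R) {C : List (Bool × List ℕ)}
    (hC : certAll R C = true) (δ : PF L ≃ PF L) (hδ : Rev δ) : ¬ ∀ x, δ (δ x) = x := by
  intro hinv
  unfold certAll at hC
  rw [Bool.and_eq_true, List.all_eq_true, Nat.blt_eq] at hC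
  obtain ⟨hpos, hC⟩ := hC
  obtain ⟨j, hj, hdj⟩ := exists_dual h D hδ hpos
  have h1 := hC j (List.mem_range.2 hj)
  unfold certOne at h1
  rw [Bool.and_eq_true, List.all_eq_true] at h1
  obtain ⟨hw, h2⟩ := h1
  have hw' : ∀ i ∈ (C.getD j (true, [])).2, i < 3 := fun i hi => by
    have := hw i hi
    rwa [Nat.blt_eq] at this
  have h3 := DualAt.run h D hδ _ hw' hpos hj hdj
  by_cases hc : (C.getD j (true, [])).1 = true
  · rw [if_pos hc, Bool.and_eq_true, Nat.beq_eq] at h2
    rw [h2.1] at h3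
    exact diff_spec h2.2 (h3.unique D hpos hdj)
  · rw [if_neg hc, Bool.and_eq_true, Nat.beq_eq] at h2
    rw [h2.1] at h3
    exact diff_spec h2.2 (h3.unique D hj (hdj.symm D hinv hpos))

/-- the flags `0` and `b1` are inequivalent -/
theorem no_aut (h : Good 3 L b t) (D : FD L R) {b1 : ℕ} {u : List ℕ} (hpos : 0 < R.length)
    (hb1 : b1 < R.length) (hu : (∀ i ∈ u, i < 3) ∧ H375.Pol.run R u 0 = 0 ∧
      diff R (H375.Pol.run R u b1) b1 = true)
    (g : PF L ≃ PF L) (hg : Pre g) : ¬ AutAt R g 0 b1 := by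
  intro ha
  have h3 := AutAt.run h D hg u hu.1 hpos hb1 ha
  rw [hu.2.1] at h3
  exact diff_spec hu.2.2 (h3.unique D hpos ha)

end H375.Pol
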