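import Pool.Agent.H375R3.Pol.Base
set_option autoImplicit false
set_option linter.unusedVariables false

/-! Flags of a rank three polytope given by lists; automorphisms and dualities act on them. -/

namespace H375.Pol

open Set

abbrev Rec := (El × El × El) × (El × El × El) × (ℕ × ℕ × ℕ)

def dflt : Rec := (((0, 0), (0, 0), (0, 0)), ((0, 0), (0, 0), (0, 0)), (0, 0, 0))
def gt (R : List Rec) (k : ℕ) : Rec := R.getD k dflt
def vt (R : List Rec) (k : ℕ) : El := (gt R k).1.1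
def et (R : List Rec) (k : ℕ) : El := (gt R k).1.2.1
def ft (R : List Rec) (k : ℕ) : El := (gt R k).1.2.2
def nb (R : List Rec) (i k : ℕ) : ℕ :=
  match i with
  | 0 => (gt R k).2.2.1
  | 1 => (gt R k).2.2.2.1
  | _ => (gt R k).2.2.2.2

/-- one record -/
def chkOne (L : List El) (R : List Rec) (r : Rec) : Bool :=
  let v := r.1.1
  let e := r.1.2.1
  let f := r.1.2.2
  let v' := r.2.1.1
  let e' := r.2.1.2.1
  let f' := r.2.1.2.2
  let a := r.2.2.1
  let b := r.2.2.2.1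
  let c := r.2.2.2.2
  L.any (fun x => eqB v x) && L.any (fun x => eqB e x) && L.any (fun x => eqB f x) &&
  Nat.beq v.1 1 && Nat.beq e.1 2 && Nat.beq f.1 3 && ltB v e && ltB e f &&
  Nat.blt a R.length && Nat.blt b R.length && Nat.blt c R.length &&
  eqB (vt R a) v' && eqB (et R a) e && eqB (ft R a) f && !(eqB v v') &&
  eqB (vt R b) v && eqB (et R b) e' && eqB (ft R b) f && !(eqB e e') &&
  eqB (vt R c) v && eqB (et R c) e && eqB (ft R c) f' && !(eqB f f') &&
  L.all (fun x => !(Nat.beq x.1 1 && ltB x e) || (eqB x v || eqB x v')) &&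
  L.all (fun x => !(ltB v x && ltB x f) || (eqB x e || eqB x e')) &&
  L.all (fun x => !(Nat.beq x.1 3 && ltB e x) || (eqB x f || eqB x f'))

def chkAll (L : List El) (R : List Rec) : Bool :=
  R.all (chkOne L R) &&
  (L.all fun x => !(Nat.beq x.1 1) || (L.all fun y => !(Nat.beq y.1 2 && ltB x y) ||
    (L.all fun z => !(Nat.beq z.1 3 && ltB y z) ||
      R.any fun r => eqB r.1.1 x && eqB r.1.2.1 y && eqB r.1.2.2 z)))

/-- what the check gives -/
structure FD (L : List El) (R : List Rec) : Prop where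
  memv : ∀ k < R.length, vt R k ∈ L
  meme : ∀ k < R.length, et R k ∈ L
  memf : ∀ k < R.length, ft R k ∈ L
  rkv : ∀ k < R.length, (vt R k).1 = 1
  rke : ∀ k < R.length, (et R k).1 = 2
  rkf : ∀ k < R.length, (ft R k).1 = 3
  lve : ∀ k < R.length, ltB (vt R k) (et R k) = true
  lef : ∀ k < R.length, ltB (et R k) (ft R k) = true
  nlt : ∀ k < R.length, ∀ i, nb R i k < R.length
  ve0 : ∀ k < R.length, vt R (nb R 0 k) ≠ vt R k
  ee0 : ∀ k < R.length, et R (nb R 0 k) = et R k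
  fe0 : ∀ k < R.length, ft R (nb R 0 k) = ft R k
  ve1 : ∀ k < R.length, vt R (nb R 1 k) = vt R k
  ee1 : ∀ k < R.length, et R (nb R 1 k) ≠ et R k
  fe1 : ∀ k < R.length, ft R (nb R 1 k) = ft R k
  ve2 : ∀ k < R.length, vt R (nb R 2 k) = vt R k
  ee2 : ∀ k < R.length, et R (nb R 2 k) = et R k
  fe2 : ∀ k < R.length, ft R (nb R 2 k) ≠ ft R k
  un0 : ∀ k < R.length, ∀ x ∈ L, x.1 = 1 → ltB x (et R k) = true →
    x = vt R k ∨ x = vt R (nb R 0 k)
  un1 : ∀ k < R.length, ∀ x ∈ L, ltB (vt R k) x = true → ltB x (ft R k) = true →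
    x = et R k ∨ x = et R (nb R 1 k)
  un2 : ∀ k < R.length, ∀ x ∈ L, x.1 = 3 → ltB (et R k) x = true →
    x = ft R k ∨ x = ft R (nb R 2 k)
  comp : ∀ x ∈ L, ∀ y ∈ L, ∀ z ∈ L, x.1 = 1 → y.1 = 2 → z.1 = 3 → ltB x y = true →
    ltB y z = true → ∃ k < R.length, vt R k = x ∧ et R k = y ∧ ft R k = z

lemma eqB_false {x y : El} : eqB x y = false ↔ x ≠ y := by
  rw [← Bool.not_eq_true, eqB_iff]

lemma gt_mem (R : List Rec) {k : ℕ} (hk : k < R.length) : gt R k ∈ R := by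
  unfold gt
  rw [List.getD_eq_getElem _ _ hk]
  exact List.getElem_mem hk

lemma fd_of_chk {L : List El} {R : List Rec} (h : chkAll L R = true) : FD L R := by
  unfold chkAll at h
  rw [Bool.and_eq_true, List.all_eq_true] at h
  obtain ⟨h1, h2⟩ := h
  have key : ∀ k < R.length, chkOne L R (gt R k) = true := fun k hk => h1 _ (gt_mem R hk)
  simp only [chkOne, Bool.and_eq_true, List.any_eq_true, List.all_eq_true, Nat.beq_eq,
    Nat.blt_eq, Bool.not_eq_true', eqB_iff, eqB_false] at key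
  have K := fun k hk => key k hk
  refine ⟨?_, ?_, ?_, ?_, ?_, ?_, ?_, ?_, ?_, ?_, ?_, ?_, ?_, ?_, ?_, ?_, ?_, ?_, ?_, ?_, ?_, ?_⟩
  · intro k hk
    obtain ⟨x, hx, he⟩ := (K k hk).1.1.1.1.1.1.1.1.1.1.1.1.1.1.1.1.1.1.1.1.1.1.1.1.1
    have : vt R k = x := he
    rw [this]; exact hx
  · intro k hk
    obtain ⟨x, hx, he⟩ := (K k hk).1.1.1.1.1.1.1.1.1.1.1.1.1.1.1.1.1.1.1.1.1.1.1.1.2
    have : et R k = x := he
    rw [this]; exact hx
  · intro k hk
    obtain ⟨x, hx, he⟩ := (K k hk).1.1.1.1.1.1.1.1.1.1.1.1.1.1.1.1.1.1.1.1.1.1.1.2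
    have : ft R k = x := he
    rw [this]; exact hx
  · intro k hk
    exact (K k hk).1.1.1.1.1.1.1.1.1.1.1.1.1.1.1.1.1.1.1.1.1.1.2
  · intro k hk
    exact (K k hk).1.1.1.1.1.1.1.1.1.1.1.1.1.1.1.1.1.1.1.1.1.2
  · intro k hk
    exact (K k hk).1.1.1.1.1.1.1.1.1.1.1.1.1.1.1.1.1.1.1.1.2
  · intro k hk
    exact (K k hk).1.1.1.1.1.1.1.1.1.1.1.1.1.1.1.1.1.1.1.2
  · intro k hk
    exact (K k hk).1.1.1.1.1.1.1.1.1.1.1.1.1.1.1.1.1.1.2
  · intro k hk i
    have ha := (K k hk).1.1.1.1.1.1.1.1.1.1.1.1.1.1.1.1.1.2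
    have hb := (K k hk).1.1.1.1.1.1.1.1.1.1.1.1.1.1.1.1.2
    have hc := (K k hk).1.1.1.1.1.1.1.1.1.1.1.1.1.1.1.2
    match i with
    | 0 => exact ha
    | 1 => exact hb
    | (i + 2) => exact hc
  · intro k hk
    have ha := (K k hk).1.1.1.1.1.1.1.1.1.1.1.1.1.1.2
    have hb := (K k hk).1.1.1.1.1.1.1.1.1.1.1.2
    intro hh
    apply hb
    exact hh.symm.trans ha
  · intro k hk
    exact (K k hk).1.1.1.1.1.1.1.1.1.1.1.1.1.2
  · intro k hk
    exact (K k hk).1.1.1.1.1.1.1.1.1.1.1.1.2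
  · intro k hk
    exact (K k hk).1.1.1.1.1.1.1.1.1.1.2
  · intro k hk
    have ha := (K k hk).1.1.1.1.1.1.1.1.1.2
    have hb := (K k hk).1.1.1.1.1.1.1.2
    intro hh
    apply hb
    exact hh.symm.trans ha
  · intro k hk
    exact (K k hk).1.1.1.1.1.1.1.1.2
  · intro k hk
    exact (K k hk).1.1.1.1.1.1.2
  · intro k hk
    exact (K k hk).1.1.1.1.1.2
  · intro k hk
    have ha := (K k hk).1.1.1.1.2
    have hb := (K k hk).1.1.1.2
    intro hh
    apply hb
    exact hh.symm.trans ha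
  · intro k hk x hx hx1 hxe
    have h3 := (K k hk).1.1.2 x hx
    have h4 := imp_of_or h3 (by rw [Bool.and_eq_true, Nat.beq_eq]; exact ⟨hx1, hxe⟩)
    rw [Bool.or_eq_true, eqB_iff, eqB_iff] at h4
    rcases h4 with h4 | h4
    · left; exact h4
    · right
      have ha := (K k hk).1.1.1.1.1.1.1.1.1.1.1.1.1.1.2
      rw [h4]; exact ha.symm
  · intro k hk x hx hx1 hxe
    have h3 := (K k hk).1.2 x hx
    have h4 := imp_of_or h3 (by rw [Bool.and_eq_true]; exact ⟨hx1, hxe⟩)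
    rw [Bool.or_eq_true, eqB_iff, eqB_iff] at h4
    rcases h4 with h4 | h4
    · left; exact h4
    · right
      have ha := (K k hk).1.1.1.1.1.1.1.1.1.2
      rw [h4]; exact ha.symm
  · intro k hk x hx hx1 hxe
    have h3 := (K k hk).2 x hx
    have h4 := imp_of_or h3 (by rw [Bool.and_eq_true, Nat.beq_eq]; exact ⟨hx1, hxe⟩)
    rw [Bool.or_eq_true, eqB_iff, eqB_iff] at h4
    rcases h4 with h4 | h4
    · left; exact h4
    · right
      have ha := (K k hk).1.1.1.1.2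
      rw [h4]; exact ha.symm
  · intro x hx y hy z hz hx1 hy1 hz1 hxy hyz
    simp only [List.all_eq_true, List.any_eq_true] at h2
    have h3 := imp_of_or (h2 x hx) (by rw [Nat.beq_eq]; exact hx1)
    simp only [List.all_eq_true, List.any_eq_true] at h3
    have h4 := imp_of_or (h3 y hy) (by rw [Bool.and_eq_true, Nat.beq_eq]; exact ⟨hy1, hxy⟩)
    simp only [List.all_eq_true, List.any_eq_true] at h4
    have h5 := imp_of_or (h4 z hz) (by rw [Bool.and_eq_true, Nat.beq_eq]; exact ⟨hz1, hyz⟩)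
    simp only [List.any_eq_true, Bool.and_eq_true, eqB_iff] at h5
    obtain ⟨r, hr, ⟨h6, h7⟩, h8⟩ := h5
    obtain ⟨k, hk, hkr⟩ := List.getElem_of_mem hr
    have hg : gt R k = r := by
      unfold gt
      rw [List.getD_eq_getElem _ _ hk]
      exact hkr
    refine ⟨k, hk, ?_, ?_, ?_⟩
    · unfold vt; rw [hg]; exact h6
    · unfold et; rw [hg]; exact h7
    · unfold ft; rw [hg]; exact h8

end H375.Pol
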