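import Pool.Agent.H375R3.Pol.Act
set_option autoImplicit false
set_option linter.unusedVariables false

/-! Automorphisms given by tables, and their orbits on flags. -/

namespace H375.Pol

open Set

variable {L : List El} {b t : El} {R : List Rec}

/-- a table that defines an order reversing bijection -/
def antiChk (L : List El) (T : List (ℕ × El)) : Bool :=
  (L.all fun x => L.any fun y => eqB (look T x) y) &&
  (L.all fun x => L.all fun y => (leB x y) == (leB (look T y) (look T x))) &&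
  (L.all fun y => L.any fun x => eqB (look T x) y)

lemma anti_of_chk (h : Good 3 L b t) {T : List (ℕ × El)} (hc : antiChk L T = true) :
    ∃ δ : PF L ≃ PF L, Rev δ := by
  unfold antiChk at hc
  simp only [Bool.and_eq_true, List.all_eq_true, List.any_eq_true, beq_iff_eq] at hc
  obtain ⟨⟨h1, h2⟩, h3⟩ := hc
  have hL : ∀ x : PF L, look T x.1 ∈ L := by
    intro x
    obtain ⟨y, hy, hxy⟩ := h1 _ x.2
    rw [eqB_iff] at hxy
    rw [hxy]; exact hy
  let f : PF L → PF L := fun x => ⟨look T x.1, hL x⟩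
  have hsurj : Function.Surjective f := by
    intro y
    obtain ⟨x, hx, hxy⟩ := h3 y.1 y.2
    rw [eqB_iff] at hxy
    exact ⟨⟨x, hx⟩, Subtype.ext hxy⟩
  have hbij : Function.Bijective f := (Finite.injective_iff_surjective.2 hsurj) |> fun hi => ⟨hi, hsurj⟩
  refine ⟨Equiv.ofBijective f hbij, ?_⟩
  intro x y
  show leB x.1 y.1 = true ↔ leB (look T y.1) (look T x.1) = true
  rw [h2 _ x.2 _ y.2]

lemma pre_of_chk (h : Good 3 L b t) {T : List (ℕ × El)}
    (hc : isoChk (L.filter (fun _ => true)) L T = true) :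
    ∃ g : PF L ≃ PF L, Pre g ∧ ∀ x : PF L, (g x).1 = look T x.1 := by
  obtain ⟨a, ha⟩ := auto_of_chk h hc
  exact ⟨a.toEquiv, fun x y => (a.le_iff_le (x := x) (y := y)).symm, ha⟩

/-- the table `T` acts on the flags as the table `G` -/
def genOK (R : List Rec) (T : List (ℕ × El)) (G : List ℕ) : Bool :=
  (List.range R.length).all fun k => Nat.blt (G.getD k 0) R.length &&
    eqB (look T (vt R k)) (vt R (G.getD k 0)) && eqB (look T (et R k)) (et R (G.getD k 0)) &&
    eqB (look T (ft R k)) (ft R (G.getD k 0))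

/-- a generating family of automorphisms with its action on the flags -/
structure Gens (L : List El) (R : List Rec) (act : ℕ → ℕ → ℕ) : Prop where
  lt : ∀ i k, k < R.length → act i k < R.length
  ex : ∀ i, ∃ g : PF L ≃ PF L, Pre g ∧ ∀ k < R.length, AutAt R g k (act i k)

lemma gen_of_chk (h : Good 3 L b t) {T : List (ℕ × El)} {G : List ℕ}
    (hc : isoChk (L.filter (fun _ => true)) L T = true) (hg : genOK R T G = true) :
    (∀ k < R.length, G.getD k 0 < R.length) ∧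
      ∃ g : PF L ≃ PF L, Pre g ∧ ∀ k < R.length, AutAt R g k (G.getD k 0) := by
  obtain ⟨g, hg1, hg2⟩ := pre_of_chk h hc
  unfold genOK at hg
  simp only [List.all_eq_true, List.mem_range, Bool.and_eq_true, Nat.blt_eq, eqB_iff] at hg
  refine ⟨fun k hk => (hg k hk).1.1.1, g, hg1, ?_⟩
  intro k hk
  obtain ⟨⟨⟨-, h1⟩, h2⟩, h3⟩ := hg k hk
  refine ⟨?_, ?_, ?_⟩
  · intro x hx; rw [hg2, hx]; exact h1
  · intro x hx; rw [hg2, hx]; exact h2
  · intro x hx; rw [hg2, hx]; exact h3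

def runG (act : ℕ → ℕ → ℕ) : List ℕ → ℕ → ℕ
  | [], k => k
  | i :: w, k => runG act w (act i k)

lemma Pre.refl : Pre (Equiv.refl (PF L)) := fun _ _ => Iff.rfl

lemma Pre.trans {g g' : PF L ≃ PF L} (h : Pre g) (h' : Pre g') : Pre (g.trans g') :=
  fun x y => (h x y).trans (h' (g x) (g y))

lemma Pre.symm {g : PF L ≃ PF L} (h : Pre g) : Pre g.symm := by
  intro x y
  have := h (g.symm x) (g.symm y)
  rw [g.apply_symm_apply, g.apply_symm_apply] at this
  exact this.symm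

lemma AutAt.refl (D : FD L R) (k : ℕ) : AutAt R (Equiv.refl (PF L)) k k :=
  ⟨fun _ h => h, fun _ h => h, fun _ h => h⟩

lemma AutAt.trans {g g' : PF L ≃ PF L} {k j l : ℕ} (h : AutAt R g k j) (h' : AutAt R g' j l) :
    AutAt R (g.trans g') k l :=
  ⟨fun x hx => h'.1 _ (h.1 x hx), fun x hx => h'.2.1 _ (h.2.1 x hx),
    fun x hx => h'.2.2 _ (h.2.2 x hx)⟩

lemma exists_word (D : FD L R) {act : ℕ → ℕ → ℕ} (hG : Gens L R act) (w : List ℕ) :
    ∀ {k : ℕ}, k < R.length → ∃ g : PF L ≃ PF L, Pre g ∧ AutAt R g k (runG act w k) := by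
  induction w with
  | nil => intro k _; exact ⟨Equiv.refl _, Pre.refl, AutAt.refl D k⟩
  | cons i w ih =>
    intro k hk
    obtain ⟨g, hg, hgk⟩ := hG.ex i
    obtain ⟨g', hg', hgk'⟩ := ih (hG.lt i k hk)
    exact ⟨g.trans g', hg.trans hg', (hgk k hk).trans hgk'⟩

/-- every flag is equivalent to the flag `0` or to the flag `b1` -/
def orbChk (R : List Rec) (act : ℕ → ℕ → ℕ) (b1 : ℕ) (O : List (Bool × List ℕ)) : Bool :=
  (List.range R.length).all fun k =>
    Nat.beq (runG act (O.getD k (false, [])).2 (if (O.getD k (false, [])).1 then b1 else 0)) k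

/-- every face lies in a flag equivalent to the flag `0` -/
def transChk (L : List El) (R : List Rec) (O : List (Bool × List ℕ)) : Bool :=
  L.all fun x =>
    (!(Nat.beq x.1 1) || (List.range R.length).any fun k => eqB (vt R k) x && !(O.getD k (false, [])).1) &&
    (!(Nat.beq x.1 2) || (List.range R.length).any fun k => eqB (et R k) x && !(O.getD k (false, [])).1) &&
    (!(Nat.beq x.1 3) || (List.range R.length).any fun k => eqB (ft R k) x && !(O.getD k (false, [])).1)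

lemma orb_of_chk (D : FD L R) {act : ℕ → ℕ → ℕ} (hG : Gens L R act) {b1 : ℕ}
    {O : List (Bool × List ℕ)} (hpos : 0 < R.length) (hb1 : b1 < R.length)
    (hO : orbChk R act b1 O = true) {k : ℕ} (hk : k < R.length) :
    ∃ g : PF L ≃ PF L, Pre g ∧ AutAt R g (if (O.getD k (false, [])).1 then b1 else 0) k := by
  unfold orbChk at hO
  simp only [List.all_eq_true, List.mem_range, Nat.beq_eq] at hO
  have h1 := hO k hk
  obtain ⟨g, hg, hgk⟩ := exists_word D hG (O.getD k (false, [])).2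
    (k := if (O.getD k (false, [])).1 then b1 else 0) (by split_ifs <;> assumption)
  rw [h1] at hgk
  exact ⟨g, hg, hgk⟩

/-- transitivity on the faces of each rank -/
lemma trans_of_chk (h : Good 3 L b t) (D : FD L R) {act : ℕ → ℕ → ℕ} (hG : Gens L R act)
    {b1 : ℕ} {O : List (Bool × List ℕ)} (hpos : 0 < R.length) (hb1 : b1 < R.length)
    (hO : orbChk R act b1 O = true) (hT : transChk L R O = true) (x y : PF L)
    (hxy : x.1.1 = y.1.1) : ∃ g : PF L ≃ PF L, Pre g ∧ g x = y := by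
  have key : ∀ x : PF L, ∀ b0 : PF L, (x.1.1 = 1 ∧ b0.1 = vt R 0) ∨ (x.1.1 = 2 ∧ b0.1 = et R 0) ∨
      (x.1.1 = 3 ∧ b0.1 = ft R 0) → ∃ g : PF L ≃ PF L, Pre g ∧ g b0 = x := by
    intro x b0 hx
    unfold transChk at hT
    simp only [List.all_eq_true, Bool.and_eq_true] at hT
    obtain ⟨⟨t1, t2⟩, t3⟩ := hT x.1 x.2
    rcases hx with ⟨hx, hb⟩ | ⟨hx, hb⟩ | ⟨hx, hb⟩
    · have h4 := imp_of_or t1 (by rw [Nat.beq_eq]; exact hx)
      simp only [List.any_eq_true, List.mem_range, Bool.and_eq_true, eqB_iff, Bool.not_eq_true'] at h4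
      obtain ⟨k, hk, h5, h6⟩ := h4
      obtain ⟨g, hg, hgk⟩ := orb_of_chk D hG hpos hb1 hO hk
      rw [h6] at hgk
      refine ⟨g, hg, Subtype.ext ?_⟩
      rw [hgk.1 b0 hb, h5]
    · have h4 := imp_of_or t2 (by rw [Nat.beq_eq]; exact hx)
      simp only [List.any_eq_true, List.mem_range, Bool.and_eq_true, eqB_iff, Bool.not_eq_true'] at h4
      obtain ⟨k, hk, h5, h6⟩ := h4
      obtain ⟨g, hg, hgk⟩ := orb_of_chk D hG hpos hb1 hO hk
      rw [h6] at hgk
      refine ⟨g, hg, Subtype.ext ?_⟩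
      rw [hgk.2.1 b0 hb, h5]
    · have h4 := imp_of_or t3 (by rw [Nat.beq_eq]; exact hx)
      simp only [List.any_eq_true, List.mem_range, Bool.and_eq_true, eqB_iff, Bool.not_eq_true'] at h4
      obtain ⟨k, hk, h5, h6⟩ := h4
      obtain ⟨g, hg, hgk⟩ := orb_of_chk D hG hpos hb1 hO hk
      rw [h6] at hgk
      refine ⟨g, hg, Subtype.ext ?_⟩
      rw [hgk.2.2 b0 hb, h5]
  have fin : ∀ b0 : PF L, (∃ g : PF L ≃ PF L, Pre g ∧ g b0 = x) →
      (∃ g : PF L ≃ PF L, Pre g ∧ g b0 = y) → ∃ g : PF L ≃ PF L, Pre g ∧ g x = y := by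
    rintro b0 ⟨g, hg, hgx⟩ ⟨g', hg', hgy⟩
    refine ⟨g.symm.trans g', hg.symm.trans hg', ?_⟩
    rw [Equiv.trans_apply, ← hgx, g.symm_apply_apply, hgy]
  have hr : (mkPoly h).rk x ≤ 4 := rk_le (mkPoly h) x
  have hcases : x.1.1 = 0 ∨ x.1.1 = 1 ∨ x.1.1 = 2 ∨ x.1.1 = 3 ∨ x.1.1 = 4 := by
    have : x.1.1 ≤ 4 := hr
    omega
  rcases hcases with hx | hx | hx | hx | hx
  · have h1 := eq_bot_of_rk (mkPoly h) (x := x) hx
    have h2 := eq_bot_of_rk (mkPoly h) (x := y) (hxy.symm.trans hx)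
    exact ⟨Equiv.refl _, Pre.refl, h1.trans h2.symm⟩
  · exact fin ⟨vt R 0, D.memv 0 hpos⟩ (key x _ (Or.inl ⟨hx, rfl⟩))
      (key y _ (Or.inl ⟨hxy ▸ hx, rfl⟩))
  · exact fin ⟨et R 0, D.meme 0 hpos⟩ (key x _ (Or.inr (Or.inl ⟨hx, rfl⟩)))
      (key y _ (Or.inr (Or.inl ⟨hxy ▸ hx, rfl⟩)))
  · exact fin ⟨ft R 0, D.memf 0 hpos⟩ (key x _ (Or.inr (Or.inr ⟨hx, rfl⟩)))
      (key y _ (Or.inr (Or.inr ⟨hxy ▸ hx, rfl⟩)))
  · have h1 := eq_top_of_rk (mkPoly h) (x := x) hx
    have h2 := eq_top_of_rk (mkPoly h) (x := y) (hxy.symm.trans hx)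
    exact ⟨Equiv.refl _, Pre.refl, h1.trans h2.symm⟩

end H375.Pol
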